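import Pool.Agent.H13.LN.Targets

/-!
# HSW: exchange of the first two double points
-/

set_option autoImplicit false

open Finset

namespace Pool.Agent.H7.LNT

open Pool.Agent.H59.LIN Pool.Agent.H13.LN

/-- removal of the labels `0` and `1` -/
def cut (b : List ℕ) : List ℕ := (b.filter (2 ≤ ·)).map (· - 2)

theorem count_cut (b : List ℕ) (k : ℕ) : (cut b).count k = b.count (k + 2) := by
  induction b with
  | nil => rfl
  | cons x t ih =>
    unfold cut at *
    by_cases hx : 2 ≤ x
    · rw [List.filter_cons_of_pos (by simpa using hx), List.map_cons, List.count_cons,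
        List.count_cons, ih]
      congr 1
      by_cases h : x = k + 2
      · rw [if_pos (by rw [h]; simp), if_pos (by rw [h]; simp)]
      · rw [if_neg (by simp; omega), if_neg (by simpa using h)]
    · rw [List.filter_cons_of_neg (by simpa using hx), List.count_cons, ih, if_neg (by simp; omega),
        add_zero]

theorem cut_pairwise {b : List ℕ} (hb : b.Pairwise (· < ·)) : (cut b).Pairwise (· < ·) := by
  unfold cut
  rw [List.pairwise_map]
  have h1 : (b.filter (2 ≤ ·)).Pairwise (· < ·) := hb.filter _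
  refine List.Pairwise.imp_of_mem ?_ h1
  intro x y hx hy hxy
  have h2 := (List.mem_filter.1 hx).2
  simp only [decide_eq_true_eq] at h2
  omega

theorem split1 (m : ℕ) (b : List ℕ) (hb : b.Pairwise (· < ·)) (h : ∀ x ∈ b, m ≤ x) :
    b = (if m ∈ b then [m] else []) ++ b.filter (m + 1 ≤ ·) := by
  cases b with
  | nil => simp
  | cons x t =>
    rw [List.pairwise_cons] at hb
    have hx := h x List.mem_cons_self
    rcases Nat.eq_or_lt_of_le hx with h1 | h1
    · subst h1
      rw [if_pos List.mem_cons_self, List.filter_cons_of_neg (by simp)]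
      have h2 : t.filter (m + 1 ≤ ·) = t := by
        rw [List.filter_eq_self]
        intro y hy
        have := hb.1 y hy
        simp only [decide_eq_true_eq]
        omega
      rw [h2]
      rfl
    · have h2 : m ∉ x :: t := by
        intro hm
        rcases List.mem_cons.1 hm with h3 | h3
        · omega
        · have := hb.1 m h3
          omega
      rw [if_neg h2, List.nil_append]
      symm
      rw [List.filter_eq_self]
      intro y hy
      simp only [decide_eq_true_eq]
      rcases List.mem_cons.1 hy with h3 | h3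
      · omega
      · have := hb.1 y h3
        omega

theorem split2 (b : List ℕ) (hb : b.Pairwise (· < ·)) :
    b = (if 0 ∈ b then [0] else []) ++ ((if 1 ∈ b then [1] else []) ++ (cut b).map (· + 2)) := by
  have h1 := split1 0 b hb (fun _ _ => Nat.zero_le _)
  have h2 := split1 1 (b.filter (0 + 1 ≤ ·)) (hb.filter _) (by
    intro x hx
    have h3 := (List.mem_filter.1 hx).2
    simpa using h3)
  have h3 : (1 ∈ b.filter (0 + 1 ≤ ·)) ↔ 1 ∈ b := by
    rw [List.mem_filter]
    simp
  have h4 : (b.filter (0 + 1 ≤ ·)).filter (1 + 1 ≤ ·) = (cut b).map (· + 2) := by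
    unfold cut
    rw [List.map_map, List.filter_filter]
    have h5 : b.filter (fun a => decide (1 + 1 ≤ a) && decide (0 + 1 ≤ a)) =
        b.filter (2 ≤ ·) := by
      apply List.filter_congr
      intro x _
      by_cases hx : 2 ≤ x
      · simp [hx]
        omega
      · simp [hx]
    rw [h5]
    symm
    have h6 : ∀ x ∈ b.filter (2 ≤ ·), ((· + 2) ∘ (· - 2)) x = id x := by
      intro x hx
      have h7 := (List.mem_filter.1 hx).2
      simp only [decide_eq_true_eq] at h7
      simp only [Function.comp_apply, id_eq]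
      omega
    rw [List.map_congr_left h6, List.map_id]
  rw [h4] at h2
  simp only [h3] at h2
  rw [← h2]
  exact h1

/-- two strictly increasing lists of blocks: the two blocks of a label -/
theorem two_blocks {n : ℕ} (β : Fin (n + 1) → List ℕ) (hβ : ∀ j, (β j).Pairwise (· < ·)) (a : ℕ)
    (h : (List.ofFn β).flatten.count a = 2) :
    ∃ j₁ j₂, j₁ ≠ j₂ ∧ ∀ j, a ∈ β j ↔ j = j₁ ∨ j = j₂ := by
  classical
  have h1 : ∀ j, (β j).count a = if a ∈ β j then 1 else 0 := by
    intro j
    by_cases hj : a ∈ β j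
    · rw [if_pos hj]
      exact List.count_eq_one_of_mem ((hβ j).imp (fun h => ne_of_lt h)) hj
    · rw [if_neg hj]
      exact List.count_eq_zero_of_not_mem hj
  rw [List.count_flatten, List.map_ofFn, List.sum_ofFn] at h
  simp only [Function.comp_apply] at h
  rw [Finset.sum_congr rfl fun j _ => h1 j, ← Finset.card_filter, Finset.card_eq_two] at h
  obtain ⟨j₁, j₂, hne, hs⟩ := h
  refine ⟨j₁, j₂, hne, fun j => ?_⟩
  have h2 : j ∈ ({j₁, j₂} : Finset (Fin (n + 1))) ↔ a ∈ β j := by
    rw [← hs, Finset.mem_filter]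
    simp
  rw [← h2]
  simp

theorem perm_ext {α : Type} [Fintype α] [DecidableEq α] {m : ℕ} (g h : Fin m → α)
    (hg : Function.Injective g) (hh : Function.Injective h) :
    ∃ τ : Equiv.Perm α, ∀ i, τ (g i) = h i := by
  classical
  obtain ⟨e, he⟩ : ∃ e : {x // x ∈ Set.range g} ≃ {x // x ∈ Set.range h},
      e = (Equiv.ofInjective g hg).symm.trans (Equiv.ofInjective h hh) := ⟨_, rfl⟩
  refine ⟨Equiv.extendSubtype e, fun i => ?_⟩
  rw [Equiv.extendSubtype_apply_of_mem e (g i) ⟨i, rfl⟩, he, Equiv.trans_apply]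
  have h1 : (Equiv.ofInjective g hg).symm ⟨g i, ⟨i, rfl⟩⟩ = i := by
    rw [Equiv.symm_apply_eq]
    rfl
  rw [h1]
  rfl

/-- a letter in front -/
theorem ev_cons {n : ℕ} (k : ℕ) (i : Fin n) (b : Bool) (w : Wd n) (p : Fin (n + 1)) :
    ev k ((i, b) :: w) p = (if b = true ∧ (p = i.castSucc ∨ p = i.succ) then [k] else []) ++
      ev (if b then k + 1 else k) w (tr i p) := rfl

theorem tr_tr {n : ℕ} (i : Fin n) (p : Fin (n + 1)) : tr i (tr i p) = p := by
  unfold tr
  exact Equiv.swap_apply_self _ _ _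

theorem ev_pair {n : ℕ} (k : ℕ) (i : Fin n) (w : Wd n) (p : Fin (n + 1)) :
    ev k ((i, true) :: (i, false) :: w) p = (if p = i.castSucc ∨ p = i.succ then [k] else []) ++
      ev (k + 1) w p := by
  rw [ev_cons, ev_cons, tr_tr]
  simp

theorem hsw (hRUN : T_RUN) (hC2 : T_C2) (hBL2 : T_BL2) (hEVA : T_EVA) : T_HSW := by
  classical
  intro B _ d g H ⟨hF, hH⟩ L hL hd hdis
  obtain ⟨e, rfl⟩ : ∃ e, d = e + 2 := ⟨d - 2, by omega⟩
  obtain ⟨m, β, rfl⟩ : ∃ (m : ℕ) (β : Fin m → List ℕ), L = List.ofFn β :=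
    ⟨L.length, L.get, (List.ofFn_get L).symm⟩
  obtain ⟨n, rfl⟩ : ∃ n, m = n + 1 := by
    cases m with
    | zero => exact absurd rfl hL.ne
    | succ n => exact ⟨n, rfl⟩
  have hβ : ∀ j, (β j).Pairwise (· < ·) := fun j => hL.inc _ (List.mem_ofFn.2 ⟨j, rfl⟩)
  obtain ⟨j₁, j₂, hne, h0⟩ := two_blocks β hβ 0 (by rw [hL.cnt 0, if_pos (by omega)])
  obtain ⟨j₃, j₄, hne', h1⟩ := two_blocks β hβ 1 (by rw [hL.cnt 1, if_pos (by omega)])
  have hdj : ∀ j, ¬ (0 ∈ β j ∧ 1 ∈ β j) := fun j => hdis _ (List.mem_ofFn.2 ⟨j, rfl⟩)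
  have n13 : j₁ ≠ j₃ := fun h => hdj j₁ ⟨(h0 _).2 (Or.inl rfl), (h1 _).2 (Or.inl h)⟩
  have n14 : j₁ ≠ j₄ := fun h => hdj j₁ ⟨(h0 _).2 (Or.inl rfl), (h1 _).2 (Or.inr h)⟩
  have n23 : j₂ ≠ j₃ := fun h => hdj j₂ ⟨(h0 _).2 (Or.inr rfl), (h1 _).2 (Or.inl h)⟩
  have n24 : j₂ ≠ j₄ := fun h => hdj j₂ ⟨(h0 _).2 (Or.inr rfl), (h1 _).2 (Or.inr h)⟩
  have ginj : Function.Injective ![j₁, j₂, j₃, j₄] := by
    intro a b hab
    fin_cases a <;> fin_cases b <;> first | rfl | (exfalso; simp at hab; first
      | exact hne hab | exact hne hab.symm | exact hne' hab | exact hne' hab.symm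
      | exact n13 hab | exact n13 hab.symm | exact n14 hab | exact n14 hab.symm
      | exact n23 hab | exact n23 hab.symm | exact n24 hab | exact n24 hab.symm)
  have hn : 3 ≤ n := by
    have := Fintype.card_le_of_injective _ ginj
    rw [Fintype.card_fin, Fintype.card_fin] at this
    omega
  obtain ⟨i0, hi0⟩ : ∃ i0 : Fin n, (i0 : ℕ) = 0 := ⟨⟨0, by omega⟩, rfl⟩
  obtain ⟨i2, hi2⟩ : ∃ i2 : Fin n, (i2 : ℕ) = 2 := ⟨⟨2, by omega⟩, rfl⟩
  have hinj : Function.Injective ![i0.castSucc, i0.succ, i2.castSucc, i2.succ] := by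
    intro a b hab
    have hab' := congrArg Fin.val hab
    fin_cases a <;> fin_cases b <;> first | rfl | (exfalso; simp [hi0, hi2] at hab')
  obtain ⟨τ, hτ⟩ := perm_ext _ _ ginj hinj
  have t1 : τ j₁ = i0.castSucc := hτ 0
  have t2 : τ j₂ = i0.succ := hτ 1
  have t3 : τ j₃ = i2.castSucc := hτ 2
  have t4 : τ j₄ = i2.succ := hτ 3
  -- the word without the first two double points
  have hL2 : VL e (List.ofFn fun j => cut (β j)) := by
    refine ⟨?_, ?_, ?_⟩
    · intro h
      have := congrArg List.length h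
      simp at this
    · intro b hb
      obtain ⟨j, rfl⟩ := List.mem_ofFn.1 hb
      exact cut_pairwise (hβ j)
    · intro k
      have h := hL.cnt (k + 2)
      rw [List.count_flatten, List.map_ofFn, List.sum_ofFn] at h ⊢
      simp only [Function.comp_apply] at h ⊢
      rw [Finset.sum_congr rfl fun j _ => count_cut (β j) k, h]
      by_cases hk : k < e
      · rw [if_pos (by omega), if_pos hk]
      · rw [if_neg (by omega), if_neg hk]
  obtain ⟨f2, hnd, hev, hrun⟩ := hC2 e n (List.ofFn fun j => cut (β j)) τ hL2 (by simp)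
  have hev2 : ∀ j, ev 0 f2 (τ j) = cut (β j) := by
    intro j
    have h := hev j
    rw [List.getElem?_ofFn] at h
    simp only [j.2, Fin.eta, dite_true, Option.some.injEq] at h
    exact h.symm
  have hev3 : ∀ j, ev 2 f2 (τ j) = (cut (β j)).map (· + 2) := by
    intro j
    have := hEVA.2.1 n 0 2 f2 (τ j)
    rw [zero_add, hev2] at this
    exact this
  have c0 : ∀ j, (τ j = i0.castSucc ∨ τ j = i0.succ) ↔ 0 ∈ β j := by
    intro j
    rw [h0, ← t1, ← t2, τ.apply_eq_iff_eq, τ.apply_eq_iff_eq]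
  have c2 : ∀ j, (τ j = i2.castSucc ∨ τ j = i2.succ) ↔ 1 ∈ β j := by
    intro j
    rw [h1, ← t3, ← t4, τ.apply_eq_iff_eq, τ.apply_eq_iff_eq]
  -- the two words
  have hr : ∀ (x y : Fin n) (p : Fin (n + 1)),
      run ((x, true) :: (x, false) :: (y, true) :: (y, false) :: f2 : Wd n) p = run f2 p := by
    intro x y p
    change run f2 (tr y (tr y (tr x (tr x p)))) = run f2 p
    rw [tr_tr, tr_tr]
  have hb1 := hBL2 n (List.ofFn β) τ ((i0, true) :: (i0, false) :: (i2, true) :: (i2, false) :: f2)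
    (by simp) (by
      intro j
      rw [List.getElem?_ofFn]
      simp only [j.2, Fin.eta, dite_true, Option.some.injEq]
      rw [ev_pair, ev_pair, zero_add, hev3]
      simp only [c0, c2]
      exact split2 _ (hβ j)) (by
      intro j
      rw [hr]
      exact hrun j)
  have hb2 := hBL2 n ((List.ofFn β).map fun b => b.map (Equiv.swap 0 1)) τ
    ((i2, true) :: (i2, false) :: (i0, true) :: (i0, false) :: f2) (by simp) (by
      intro j
      rw [List.map_ofFn, List.getElem?_ofFn]
      simp only [j.2, Fin.eta, dite_true, Option.some.injEq, Function.comp_apply]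
      rw [ev_pair, ev_pair, zero_add, hev3]
      simp only [c0, c2]
      conv_lhs => rw [split2 _ (hβ j)]
      have h6 : ∀ x ∈ (cut (β j)).map (· + 2), Equiv.swap 0 1 x = id x := by
        intro x hx
        obtain ⟨y, _, rfl⟩ := List.mem_map.1 hx
        exact Equiv.swap_apply_of_ne_of_ne (by omega) (by omega)
      rw [List.map_append, List.map_append, List.map_congr_left h6, List.map_id]
      by_cases a0 : 0 ∈ β j
      · have a1 : 1 ∉ β j := fun h => hdj j ⟨a0, h⟩
        simp [a0, a1]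
      · simp only [a0, if_false, List.map_nil, List.nil_append]
        by_cases a1 : 1 ∈ β j
        · simp [a1]
        · simp [a1]) (by
      intro j
      rw [hr]
      exact hrun j)
  have hnd1 : ∀ (x y : Fin n),
      nd ((x, true) :: (x, false) :: (y, true) :: (y, false) :: f2 : Wd n) = e + 2 := by
    intro x y
    unfold nd at hnd ⊢
    simp only [List.countP_cons, hnd]
    simp
  have e1 := hH n _ (τ 0) hb1.1 (hnd1 i0 i2)
  have e2 := hH n _ (τ 0) hb2.1 (hnd1 i2 i0)
  rw [hb1.2] at e1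
  rw [hb2.2] at e2
  rw [e1, e2]
  -- the double points commute
  have hlt : (i0 : ℕ) + 1 < i2 := by omega
  have step : ∀ (u v : Wd n) (b c : Bool), Knot (u ++ (i0, b) :: (i2, c) :: v) →
      nd (u ++ (i0, b) :: (i2, c) :: v) = e + 2 →
      g n (u ++ (i0, b) :: (i2, c) :: v) = g n (u ++ (i2, c) :: (i0, b) :: v) ∧
      Knot (u ++ (i2, c) :: (i0, b) :: v) ∧ nd (u ++ (i2, c) :: (i0, b) :: v) = e + 2 := by
    intro u v b c hk hn'
    have hst := hRUN.2.2.2.2.2.2.1 n _ _ (St.far u v i0 i2 b c hlt)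
    refine ⟨hF.far n u v i0 i2 b c hlt hk hn', ?_, ?_⟩
    · exact hRUN.2.2.2.2.1 n Bool Bool _ _ hst.1 hk
    · rw [← hst.2]
      exact hn'
  obtain ⟨s1, k1, d1⟩ := step [(i0, true)] ((i2, false) :: f2) false true hb1.1 (hnd1 i0 i2)
  obtain ⟨s2, k2, d2⟩ := step [] ((i0, false) :: (i2, false) :: f2) true true k1 d1
  obtain ⟨s3, k3, d3⟩ := step [(i2, true), (i0, true)] f2 false false k2 d2
  obtain ⟨s4, k4, d4⟩ := step [(i2, true)] ((i0, false) :: f2) true false k3 d3
  exact (s1.trans (s2.trans (s3.trans s4))).symm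

end Pool.Agent.H7.LNT
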